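import Pool.Agent.Q256.MP.Stm3

set_option autoImplicit false

namespace Pool.Agent.Q137.MP

open Pool.Agent.Q256.MP Polynomial

theorem rat_of_fixed (c : ℂ) (h : ∀ τ : ℂ ≃+* ℂ, τ c = c) : c ∈ Set.range (algebraMap ℚ ℂ) := by
  by_contra hq
  have hc : c ∉ (⊥ : Subfield ℂ) := by
    intro hc
    have h1 : (⊥ : Subfield ℂ) ≤ (algebraMap ℚ ℂ).fieldRange := bot_le
    obtain ⟨q, hq'⟩ := h1 hc
    exact hq ⟨q, hq'⟩
  obtain ⟨τ, -, hτ⟩ := Pool.Agent.TH119.MX.exists_move hc
  exact hτ (h τ)

theorem rint : S_rint := by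
  intro m a b ha hτ
  classical
  have hinj : Set.InjOn a (↑(Finset.univ : Finset (Fin m))) := fun x _ y _ h => ha h
  set T : ℂ[X] := Lagrange.interpolate Finset.univ a b with hT
  have hTd : T.degree < m := by
    have h := Lagrange.degree_interpolate_lt b hinj
    rw [Finset.card_univ, Fintype.card_fin] at h
    exact h
  have hTe : ∀ i, T.eval (a i) = b i := fun i =>
    Lagrange.eval_interpolate_at_node b hinj (Finset.mem_univ i)
  have hfix : ∀ (τ : ℂ ≃+* ℂ) (n : ℕ), τ (T.coeff n) = T.coeff n := by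
    intro τ n
    obtain ⟨π, hπ⟩ := hτ τ
    have hpi : Function.Injective π := by
      intro x y hxy
      apply ha
      apply τ.injective
      rw [(hπ x).1, (hπ y).1, hxy]
    have hps : Function.Surjective π := Finite.surjective_of_injective hpi
    have h1 : T.map (τ : ℂ →+* ℂ) = T := by
      have hcard : ((Finset.univ.image a).card : WithBot ℕ) = m := by
        rw [Finset.card_image_of_injective _ ha, Finset.card_univ, Fintype.card_fin]
      apply Polynomial.eq_of_degrees_lt_of_eval_finset_eq (Finset.univ.image a)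
      · rw [hcard]
        exact lt_of_le_of_lt Polynomial.degree_map_le hTd
      · rw [hcard]
        exact hTd
      · intro x hx
        obtain ⟨k, -, rfl⟩ := Finset.mem_image.1 hx
        obtain ⟨i, rfl⟩ := hps k
        rw [← (hπ i).1]
        have h2 : eval (τ (a i)) (T.map (τ : ℂ →+* ℂ)) = τ (T.eval (a i)) := by
          have := Polynomial.eval_map_apply (f := (τ : ℂ →+* ℂ)) (p := T) (x := a i)
          simpa using this
        rw [h2, hTe, (hπ i).2, (hπ i).1, hTe]
    have h3 := congrArg (fun P : ℂ[X] => P.coeff n) h1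
    simpa using h3
  have hl : T ∈ Polynomial.lifts (algebraMap ℚ ℂ) := by
    rw [Polynomial.lifts_iff_coeff_lifts]
    exact fun n => rat_of_fixed _ fun τ => hfix τ n
  obtain ⟨q, hq, hqd⟩ := Polynomial.exists_degree_eq_of_mem_lifts hl
  refine ⟨q, by rw [hqd]; exact hTd, fun i => ?_⟩
  rw [← hTe i, ← hq, Polynomial.eval_map_algebraMap]

end Pool.Agent.Q137.MP
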